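import Pool.Agent.Lead.Spec

namespace Pool.Agent.Results.MP_8481ed_ag.Counterexample

open Pool.Agent.Lead.Spec

theorem result (k : Type) [Field k] [IsAlgClosed k] :
    ∃ (r : ℕ) (P : Fin r → Fin 3 → k) (d : ℕ) (m : Fin r → ℕ) (n : ℕ), 1 < n ∧
      (∀ i, P i ≠ 0) ∧ (∀ i j, i ≠ j → ∀ c : k, P j ≠ c • P i) ∧ (∀ i, m i ≤ d) ∧
      Effective P d m ∧ ¬ Indep P d m ∧ Indep P (n * d) (fun i => n * m i) := by
  obtain ⟨P, h1, h2, h3, h4, h5⟩ := main (k := k)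
  exact ⟨16, P, 5, fun _ => 1, 2, by norm_num, h1, h2, fun _ => by norm_num, h3, h4, h5⟩

end Pool.Agent.Results.MP_8481ed_ag.Counterexample
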